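import Mathlib

/-! Banach limits, orthonormal sequences and diagonal operators on a Hilbert basis. -/

open Filter Topology

namespace Pool.Agent.FS.AsymLimit

abbrev Seq := BoundedContinuousFunction ℕ ℂ

section Lim
variable (L : Seq →ₗ[ℂ] ℂ)
  (hpos : ∀ u : Seq, (∀ n, 0 ≤ (u n).re ∧ (u n).im = 0) → 0 ≤ (L u).re ∧ (L u).im = 0)
  (hshift : ∀ u v : Seq, (∀ n, v n = u (n + 1)) → L v = L u)
  (hone : ∀ u : Seq, (∀ n, u n = 1) → L u = 1)

include hpos hone in
theorem lim_le (u : Seq) (c : ℂ) (d : ℝ) (h : ∀ n, (c * u n).re ≤ d ∧ (c * u n).im = 0) :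
    (c * L u).re ≤ d ∧ (c * L u).im = 0 := by
  have h1 := hone (BoundedContinuousFunction.const ℕ (1 : ℂ)) fun _ => rfl
  have h2 := hpos ((d : ℂ) • BoundedContinuousFunction.const ℕ (1 : ℂ) - c • u) fun n => by
    have h3 : ((d : ℂ) • BoundedContinuousFunction.const ℕ (1 : ℂ) - c • u) n = d - c * u n := by
      simp
    rw [h3, Complex.sub_re, Complex.sub_im, Complex.ofReal_re, Complex.ofReal_im, (h n).2]
    exact ⟨by linarith [(h n).1], by ring⟩
  rw [map_sub, map_smul, map_smul, h1, smul_eq_mul, smul_eq_mul, mul_one, Complex.sub_re,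
    Complex.sub_im, Complex.ofReal_re, Complex.ofReal_im] at h2
  exact ⟨by linarith [h2.1], by linarith [h2.2]⟩

include hshift in
theorem lim_shift (k : ℕ) : ∀ u v : Seq, (∀ n, v n = u (n + k)) → L v = L u := by
  induction k with
  | zero => intro u v h; congr 1; ext n; exact h n
  | succ k ih =>
    intro u v h
    let w : Seq := u.compContinuous ⟨fun n => n + 1, continuous_of_discreteTopology⟩
    exact (ih w v fun n => h n).trans (hshift u w fun _ => rfl)

include hpos hshift hone in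
theorem lim_zero_real (u : Seq) (hu : ∀ n, (u n).im = 0) (h : Tendsto u atTop (𝓝 0)) :
    L u = 0 := by
  have key : ∀ ε : ℝ, 0 < ε → |(L u).re| ≤ ε ∧ (L u).im = 0 := by
    intro ε hε
    obtain ⟨N, hN⟩ := Metric.tendsto_atTop.1 h ε hε
    let w : Seq := u.compContinuous ⟨fun n => n + N, continuous_of_discreteTopology⟩
    have hw : L w = L u := lim_shift L hshift N u w fun _ => rfl
    have hb : ∀ n, |(w n).re| ≤ ε := fun n => (Complex.abs_re_le_norm _).trans (by
      have := hN (n + N) (by omega)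
      rw [dist_zero_right] at this
      exact this.le)
    have h1 := lim_le L hpos hone w 1 ε fun n => by
      rw [one_mul]; exact ⟨(abs_le.1 (hb n)).2, hu _⟩
    have h2 := lim_le L hpos hone w (-1) ε fun n => by
      rw [neg_one_mul, Complex.neg_re, Complex.neg_im]
      exact ⟨by linarith [(abs_le.1 (hb n)).1], neg_eq_zero.2 (hu _)⟩
    rw [one_mul, hw] at h1
    rw [neg_one_mul, hw, Complex.neg_re] at h2
    exact ⟨abs_le.2 ⟨by linarith [h2.1], h1.1⟩, h1.2⟩
  refine Complex.ext (abs_nonpos_iff.1 (le_of_forall_pos_le_add fun ε hε => ?_)) (key 1 one_pos).2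
  rw [zero_add]
  exact (key ε hε).1

include hpos hshift hone in
theorem lim_eq (u : Seq) (c : ℂ) (h : Tendsto u atTop (𝓝 c)) : L u = c := by
  let a : Seq := .ofNormedAddCommGroupDiscrete (fun n => ((u n - c).re : ℂ)) (‖u‖ + ‖c‖) fun n => by
    rw [Complex.norm_real]
    exact (Complex.abs_re_le_norm _).trans ((norm_sub_le _ _).trans
      (add_le_add (u.norm_coe_le_norm n) le_rfl))
  let b : Seq := .ofNormedAddCommGroupDiscrete (fun n => ((u n - c).im : ℂ)) (‖u‖ + ‖c‖) fun n => by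
    rw [Complex.norm_real]
    exact (Complex.abs_im_le_norm _).trans ((norm_sub_le _ _).trans
      (add_le_add (u.norm_coe_le_norm n) le_rfl))
  have h0 : Tendsto (fun n => u n - c) atTop (𝓝 0) := by simpa using h.sub_const c
  have ha : L a = 0 := lim_zero_real L hpos hshift hone a (fun n => Complex.ofReal_im _)
    (((Complex.continuous_ofReal.comp Complex.continuous_re).tendsto' 0 0 (by simp)).comp h0)
  have hb : L b = 0 := lim_zero_real L hpos hshift hone b (fun n => Complex.ofReal_im _)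
    (((Complex.continuous_ofReal.comp Complex.continuous_im).tendsto' 0 0 (by simp)).comp h0)
  have h1 : u = a + Complex.I • b + c • BoundedContinuousFunction.const ℕ (1 : ℂ) := by
    ext n
    change u n = ((u n - c).re : ℂ) + Complex.I * ((u n - c).im : ℂ) + c * 1
    rw [mul_comm Complex.I, Complex.re_add_im]
    ring
  rw [h1, map_add, map_add, map_smul, map_smul, ha, hb, hone _ fun _ => rfl]
  simp

end Lim

variable {H : Type*} [NormedAddCommGroup H] [InnerProductSpace ℂ H]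

/-- an orthonormal sequence that stays orthogonal under `X` -/
theorem exists_seq [CompleteSpace H] (X : H →L[ℂ] H) (Q : ℕ → H → Prop)
    (hQ : ∀ m n x, m ≤ n → Q n x → Q m x)
    (h : ∀ (n : ℕ) (s : Finset H), ∃ x, ‖x‖ = 1 ∧ (∀ f ∈ s, inner ℂ f x = 0) ∧ Q n x) :
    ∃ g : ℕ → H, Orthonormal ℂ g ∧ (∀ i j, i ≠ j → inner ℂ (X (g i)) (X (g j)) = 0) ∧
      ∀ n, Q n (g n) := by
  classical
  obtain ⟨f, h1, h2⟩ := exists_seq_of_forall_finset_exists
    (fun z : H × ℕ => ‖z.1‖ = 1 ∧ Q z.2 z.1)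
    (fun z y => inner ℂ z.1 y.1 = 0 ∧ inner ℂ (X z.1) (X y.1) = 0 ∧ z.2 < y.2) fun s _ => by
      obtain ⟨x, x1, x2, x3⟩ := h (s.sup Prod.snd + 1)
        (s.image Prod.fst ∪ s.image fun z => X.adjoint (X z.1))
      refine ⟨(x, s.sup Prod.snd + 1), ⟨x1, x3⟩, fun z hz => ⟨x2 _ ?_, ?_, ?_⟩⟩
      · exact Finset.mem_union_left _ (Finset.mem_image_of_mem _ hz)
      · rw [← X.adjoint_inner_left]
        exact x2 _ (Finset.mem_union_right _ (Finset.mem_image_of_mem _ hz))
      · exact Nat.lt_succ_of_le (Finset.le_sup (f := Prod.snd) hz)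
  have h3 : StrictMono fun n => (f n).2 := fun m n hmn => (h2 m n hmn).2.2
  refine ⟨fun n => (f n).1, ⟨fun n => (h1 n).1, fun i j hij => ?_⟩, fun i j hij => ?_,
    fun n => hQ _ _ _ (h3.id_le n) (h1 n).2⟩
  · rcases lt_or_gt_of_ne hij with hl | hl
    · exact (h2 i j hl).1
    · exact inner_eq_zero_symm.1 (h2 j i hl).1
  · rcases lt_or_gt_of_ne hij with hl | hl
    · exact (h2 i j hl).2.1
    · exact inner_eq_zero_symm.1 (h2 j i hl).2.1

theorem ext_basis {w : Type*} (b : HilbertBasis w ℂ H) {S S' : H →L[ℂ] H}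
    (h : ∀ i, S (b i) = S' (b i)) : S = S' := by
  refine ContinuousLinearMap.ext_on (s := Set.range b)
    (Submodule.dense_iff_topologicalClosure_eq_top.2 b.dense_span) ?_
  rintro _ ⟨i, rfl⟩
  exact h i

theorem exists_iso [CompleteSpace H] {w : Type*} (b : HilbertBasis w ℂ H) (e : w → H)
    (he : Orthonormal ℂ e) : ∃ J : H →L[ℂ] H, (∀ x y, inner ℂ (J x) (J y) = inner ℂ x y) ∧
      (∀ x, ‖J x‖ = ‖x‖) ∧ ∀ i, J (b i) = e i := by
  classical
  let J := he.orthogonalFamily.linearIsometry.comp b.repr.toLinearIsometry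
  refine ⟨J.toContinuousLinearMap, J.inner_map_map, J.norm_map, fun i => ?_⟩
  change he.orthogonalFamily.linearIsometry (b.repr (b i)) = e i
  rw [b.repr_self, OrthogonalFamily.linearIsometry_apply_single]
  simp

theorem exists_diag [CompleteSpace H] {w : Type*} (b : HilbertBasis w ℂ H) (d : w → ℂ) {K : ℝ}
    (hK : 0 ≤ K) (hd : ∀ i, ‖d i‖ ≤ K) :
    ∃ D : H →L[ℂ] H, ‖D‖ ≤ K ∧ ∀ i, D (b i) = d i • b i := by
  classical
  have hT : ∀ i, ‖(d i • ContinuousLinearMap.id ℂ ℂ : ℂ →L[ℂ] ℂ)‖ ≤ K := fun i => by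
    rw [norm_smul, ContinuousLinearMap.norm_id, mul_one]; exact hd i
  let M := lp.mapCLM 2 (fun i => (d i • ContinuousLinearMap.id ℂ ℂ : ℂ →L[ℂ] ℂ)) hK hT
  refine ⟨(b.repr.symm.toLinearIsometry.toContinuousLinearMap.comp M).comp
    b.repr.toLinearIsometry.toContinuousLinearMap,
    ContinuousLinearMap.opNorm_le_bound _ hK fun x => ?_, fun i => ?_⟩
  · change ‖b.repr.symm (M (b.repr x))‖ ≤ K * ‖x‖
    rw [LinearIsometryEquiv.norm_map, ← b.repr.norm_map x]
    exact M.le_of_opNorm_le (lp.norm_mapCLM_le _ _ hK hT) _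
  · change b.repr.symm (M (b.repr (b i))) = d i • b i
    rw [LinearIsometryEquiv.symm_apply_eq, map_smul, b.repr_self]
    ext j
    change d j * (lp.single 2 i (1 : ℂ) : lp (fun _ : w => ℂ) 2) j =
      d i * (lp.single 2 i (1 : ℂ) : lp (fun _ : w => ℂ) 2) j
    by_cases hij : j = i
    · rw [hij]
    · rw [lp.single_apply_ne _ _ _ hij, mul_zero, mul_zero]

end Pool.Agent.FS.AsymLimit
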