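import Pool.Agent.FS.AsymLimit.Base

/-! Construction of a power bounded operator with a given asymptotic limit. -/

open Filter Topology

namespace Pool.Agent.FS.AsymLimit

variable {H : Type*} [NormedAddCommGroup H] [InnerProductSpace ℂ H]

theorem countable_basis [TopologicalSpace.SeparableSpace H] {w : Type*} (e : w → H)
    (he : Orthonormal ℂ e) : Countable w := by
  refine Pairwise.countable_of_isOpen_disjoint (s := fun i => Metric.ball (e i) (1 / 2))
    (fun i j hij => Metric.ball_disjoint_ball ?_) (fun _ => Metric.isOpen_ball)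
    fun i => ⟨e i, Metric.mem_ball_self (by norm_num)⟩
  have h1 := norm_sub_sq (𝕜 := ℂ) (e i) (e j)
  rw [he.1, he.1, he.2 hij, map_zero] at h1
  rw [dist_eq_norm]
  nlinarith [norm_nonneg (e i - e j)]

theorem suf [CompleteSpace H] [TopologicalSpace.SeparableSpace H] (X : H →L[ℂ] H)
    (h : ∀ (s : Finset H) (ε : ℝ), 0 < ε →
      ∃ x, ‖x‖ = 1 ∧ (∀ f ∈ s, inner ℂ f x = 0) ∧ |‖X x‖ ^ 2 - 1| < ε) :
    ∃ T : H →L[ℂ] H, (∃ M : ℝ, ∀ n : ℕ, ‖T ^ n‖ ≤ M) ∧ ∀ x y,
      Tendsto (fun n : ℕ => inner ℂ ((T ^ n) x) ((T ^ n) y)) atTop (𝓝 (inner ℂ (X x) (X y))) := by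
  classical
  obtain ⟨g, hg, hXg, hQ⟩ := exists_seq X (fun n x => |‖X x‖ ^ 2 - 1| < 1 / (2 * ((n : ℝ) + 1)))
    (fun m n x hmn hx => hx.trans_le (one_div_le_one_div_of_le (by positivity) (by
      have : (m : ℝ) ≤ n := by exact_mod_cast hmn
      linarith))) fun n s => h s _ (by positivity)
  have ha : ∀ n, 1 / 2 ≤ ‖X (g n)‖ := fun n => by
    have h1 : 1 / (2 * ((n : ℝ) + 1)) ≤ 1 / 2 := one_div_le_one_div_of_le (by norm_num) (by
      have : (0 : ℝ) ≤ n := n.cast_nonneg
      linarith)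
    have h2 := (abs_lt.1 (hQ n)).1
    by_contra hc
    nlinarith [norm_nonneg (X (g n))]
  have ha' : ∀ n : ℕ, |‖X (g n)‖⁻¹ - 1| ≤ 1 / ((n : ℝ) + 1) := fun n => by
    obtain ⟨a, hae⟩ : ∃ a, a = ‖X (g n)‖ := ⟨_, rfl⟩
    have h1 := ha n
    have h2 := hQ n
    rw [← hae] at h1 h2 ⊢
    have h3 : a⁻¹ - 1 = -((a ^ 2 - 1) / (a * (a + 1))) := by field_simp; ring
    have h4 : 1 / ((n : ℝ) + 1) = 1 / (2 * ((n : ℝ) + 1)) / (1 / 2) := by field_simp
    rw [h3, abs_neg, abs_div, h4, abs_of_pos (show 0 < a * (a + 1) by positivity)]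
    exact div_le_div₀ (by positivity) h2.le (by norm_num) (by nlinarith)
  let ι : ℕ → H := fun n => ((‖X (g n)‖⁻¹ : ℝ) : ℂ) • X (g n)
  have hι : Orthonormal ℂ ι := by
    refine ⟨fun n => ?_, fun i j hij => ?_⟩
    · have := ha n
      change ‖((‖X (g n)‖⁻¹ : ℝ) : ℂ) • X (g n)‖ = 1
      rw [norm_smul, Complex.norm_real, norm_inv, norm_norm, inv_mul_cancel₀ (by linarith)]
    · change inner ℂ (((‖X (g i)‖⁻¹ : ℝ) : ℂ) • X (g i)) (((‖X (g j)‖⁻¹ : ℝ) : ℂ) • X (g j)) = 0
      rw [inner_smul_left, inner_smul_right, hXg i j hij, mul_zero, mul_zero]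
  obtain ⟨w, b, hw, hb⟩ := hι.toSubtypeRange.exists_hilbertBasis_extension
  have := countable_basis b b.orthonormal
  obtain ⟨c, hc⟩ := exists_injective_nat w
  let φ : w → ℕ := fun i => Nat.pair (c i) (Function.invFun ι i + 1)
  have hφ : Function.Injective φ := fun i j hij => hc (Nat.pair_eq_pair.1 hij).1
  let τ : w → w := fun i => ⟨ι (φ i), hw ⟨_, rfl⟩⟩
  have hιi : Function.Injective ι := hι.linearIndependent.injective
  have hτ : Function.Injective τ := fun i j hij => hφ (hιi (congrArg Subtype.val hij))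
  have hgrow : ∀ n i, n ≤ φ (τ^[n] i) := by
    intro n i
    induction n with
    | zero => exact Nat.zero_le _
    | succ n ih =>
      rw [Function.iterate_succ_apply']
      refine le_trans ?_ (Nat.right_le_pair _ _)
      change n + 1 ≤ Function.invFun ι (ι (φ (τ^[n] i))) + 1
      rw [Function.leftInverse_invFun hιi]
      omega
  obtain ⟨J, hJ, hJn, hJb⟩ := exists_iso b (g ∘ φ) (hg.comp φ hφ)
  obtain ⟨V, hV, hVn, hVb⟩ := exists_iso b (b ∘ τ) (b.orthonormal.comp τ hτ)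
  obtain ⟨D, -, hDb⟩ := exists_diag b (fun i => ((‖X (g (φ i))‖⁻¹ : ℝ) : ℂ)) (K := 2)
    (by norm_num) fun i => by
      rw [Complex.norm_real, norm_inv, norm_norm]
      exact inv_le_of_inv_le₀ (by norm_num) (by simpa using ha (φ i))
  have hXR : X * (J * D) = V := ext_basis b fun i => by
    change X (J (D (b i))) = V (b i)
    rw [hDb, map_smul, map_smul, hJb, hVb, hb]
    rfl
  have hVp : ∀ (n : ℕ) i, (V ^ n) (b i) = b (τ^[n] i) := by
    intro n i
    induction n with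
    | zero => rfl
    | succ n ih =>
      rw [pow_succ', mul_apply_eq_comp, ih, hVb, Function.iterate_succ_apply']
      rfl
  have hVi : ∀ (n : ℕ) x y, inner ℂ ((V ^ n) x) ((V ^ n) y) = inner ℂ x y := by
    intro n x y
    induction n with
    | zero => rfl
    | succ n ih => rw [pow_succ', mul_apply_eq_comp, mul_apply_eq_comp,
        hV, ih]
  have hVm : ∀ (n : ℕ) x, ‖(V ^ n) x‖ = ‖x‖ := by
    intro n x
    induction n with
    | zero => rfl
    | succ n ih => rw [pow_succ', mul_apply_eq_comp, hVn, ih]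
  have hT : ∀ n : ℕ, (J * D * X) ^ (n + 1) = J * D * V ^ n * X := by
    intro n
    induction n with
    | zero => rw [zero_add, pow_one, pow_zero, mul_one]
    | succ n ih =>
      rw [pow_succ, ih, pow_succ, ← hXR]
      simp only [mul_assoc]
  have hE : ∀ (n : ℕ) x, ‖D ((V ^ n) x) - (V ^ n) x‖ ≤ 1 / ((n : ℝ) + 1) * ‖x‖ := by
    intro n x
    obtain ⟨E, hE, hEb⟩ := exists_diag b
      (fun i => ((‖X (g (φ (τ^[n] i)))‖⁻¹ - 1 : ℝ) : ℂ)) (K := 1 / ((n : ℝ) + 1))
      (by positivity) fun i => by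
        rw [Complex.norm_real, Real.norm_eq_abs]
        refine (ha' _).trans (one_div_le_one_div_of_le (by positivity) ?_)
        have : (n : ℝ) ≤ φ (τ^[n] i) := by exact_mod_cast hgrow n i
        linarith
    have h1 : D * V ^ n - V ^ n = V ^ n * E := ext_basis b fun i => by
      change D ((V ^ n) (b i)) - (V ^ n) (b i) = (V ^ n) (E (b i))
      rw [hEb, map_smul, hVp, hDb, Complex.ofReal_sub, sub_smul, Complex.ofReal_one, one_smul]
    have h2 : D ((V ^ n) x) - (V ^ n) x = (V ^ n) (E x) := congrArg (fun S : H →L[ℂ] H => S x) h1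
    rw [h2, hVm]
    exact E.le_of_opNorm_le hE x
  have hE0 : ∀ x, Tendsto (fun n : ℕ => ‖D ((V ^ n) x) - (V ^ n) x‖) atTop (𝓝 0) := fun x =>
    squeeze_zero (fun _ => norm_nonneg _) (fun n => hE n x) (by
      simpa using (tendsto_one_div_add_atTop_nhds_zero_nat (𝕜 := ℝ)).mul_const ‖x‖)
  refine ⟨J * D * X, ⟨max 1 (‖D‖ * ‖X‖), fun n => ?_⟩, fun x y => ?_⟩
  · cases n with
    | zero => rw [pow_zero]; exact ContinuousLinearMap.norm_id_le.trans (le_max_left _ _)
    | succ n =>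
      rw [hT]
      refine le_trans (ContinuousLinearMap.opNorm_le_bound _ (by positivity) fun x => ?_)
        (le_max_right _ _)
      change ‖J (D ((V ^ n) (X x)))‖ ≤ _
      rw [hJn, mul_assoc]
      refine (D.le_opNorm _).trans (mul_le_mul_of_nonneg_left ?_ (norm_nonneg _))
      rw [hVm]
      exact X.le_opNorm x
  · rw [← tendsto_add_atTop_iff_nat 1, tendsto_iff_norm_sub_tendsto_zero]
    refine squeeze_zero (fun _ => norm_nonneg _) (fun n => ?_) (by
      simpa only [zero_mul, mul_zero, add_zero] using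
        ((hE0 (X x)).mul_const (‖D‖ * ‖X y‖)).add ((hE0 (X y)).const_mul ‖X x‖))
    rw [hT]
    change ‖inner ℂ (J (D ((V ^ n) (X x)))) (J (D ((V ^ n) (X y)))) - inner ℂ (X x) (X y)‖ ≤ _
    rw [hJ, ← hVi n (X x) (X y)]
    have h1 : inner ℂ (D ((V ^ n) (X x))) (D ((V ^ n) (X y))) -
        inner ℂ ((V ^ n) (X x)) ((V ^ n) (X y)) =
        inner ℂ (D ((V ^ n) (X x)) - (V ^ n) (X x)) (D ((V ^ n) (X y))) +
        inner ℂ ((V ^ n) (X x)) (D ((V ^ n) (X y)) - (V ^ n) (X y)) := by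
      rw [inner_sub_left, inner_sub_right]; ring
    rw [h1]
    refine (norm_add_le _ _).trans (add_le_add ((norm_inner_le_norm _ _).trans ?_)
      ((norm_inner_le_norm _ _).trans ?_))
    · refine mul_le_mul_of_nonneg_left ((D.le_opNorm _).trans ?_) (norm_nonneg _)
      rw [hVm]
    · rw [hVm]

end Pool.Agent.FS.AsymLimit
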