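import Pool.Agent.FS.AsymLimit.Nec
import Pool.Agent.FS.AsymLimit.Suf

/-! Two forms of the condition that one lies in the essential numerical range. -/

open Filter Topology

namespace Pool.Agent.FS.AsymLimit

variable {H : Type*} [NormedAddCommGroup H] [InnerProductSpace ℂ H] [CompleteSpace H]

theorem seq_of_ess (X : H →L[ℂ] H) (h : ∀ (s : Finset H) (ε : ℝ), 0 < ε →
      ∃ x, ‖x‖ = 1 ∧ (∀ f ∈ s, inner ℂ f x = 0) ∧ |‖X x‖ ^ 2 - 1| < ε) :
    ∃ e : ℕ → H, Orthonormal ℂ e ∧ Tendsto (fun n => ‖X (e n)‖ ^ 2) atTop (𝓝 1) := by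
  obtain ⟨g, hg, -, hQ⟩ := exists_seq X (fun n x => |‖X x‖ ^ 2 - 1| < 1 / ((n : ℝ) + 1))
    (fun m n x hmn hx => hx.trans_le (one_div_le_one_div_of_le (by positivity) (by
      have : (m : ℝ) ≤ n := by exact_mod_cast hmn
      linarith))) fun n s => h s _ (by positivity)
  exact ⟨g, hg, tendsto_iff_norm_sub_tendsto_zero.2 (squeeze_zero (fun _ => norm_nonneg _)
    (fun n => (hQ n).le) tendsto_one_div_add_atTop_nhds_zero_nat)⟩

theorem ess_of_seq (X : H →L[ℂ] H) (e : ℕ → H) (he : Orthonormal ℂ e)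
    (h : Tendsto (fun n => ‖X (e n)‖ ^ 2) atTop (𝓝 1)) (s : Finset H) (ε : ℝ) (hε : 0 < ε) :
    ∃ x, ‖x‖ = 1 ∧ (∀ f ∈ s, inner ℂ f x = 0) ∧ |‖X x‖ ^ 2 - 1| < ε := by
  let F := Submodule.span ℂ (s : Set H)
  have h1 : Tendsto (fun n => ‖F.starProjection (e n)‖ ^ 2) atTop (𝓝 0) :=
    (summable_of_sum_le (fun _ => sq_nonneg _) fun t => proj_sum F (ContinuousLinearMap.id ℂ H)
      ContinuousLinearMap.norm_id_le e he t).tendsto_atTop_zero
  have h2 : Tendsto (fun n => ‖F.starProjection (e n)‖) atTop (𝓝 0) := by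
    simpa using h1.sqrt
  have h3 : Tendsto (fun n => ‖X (e n)‖) atTop (𝓝 1) := by simpa using h.sqrt
  have h4 : Tendsto (fun n => ‖e n - F.starProjection (e n)‖) atTop (𝓝 1) := by
    refine tendsto_iff_norm_sub_tendsto_zero.2 (squeeze_zero (fun _ => norm_nonneg _)
      (fun n => ?_) h2)
    have := abs_norm_sub_norm_le (e n - F.starProjection (e n)) (e n)
    rwa [he.1 n, sub_sub_cancel_left, norm_neg] at this
  have h5 : Tendsto (fun n => ‖X (e n - F.starProjection (e n))‖) atTop (𝓝 1) := by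
    have h6 : Tendsto (fun n => ‖X (e n - F.starProjection (e n))‖ - ‖X (e n)‖) atTop (𝓝 0) := by
      refine squeeze_zero_norm (fun n => ?_) (by
        simpa only [mul_zero] using h2.const_mul ‖X‖)
      have := abs_norm_sub_norm_le (X (e n - F.starProjection (e n))) (X (e n))
      rw [← map_sub, sub_sub_cancel_left, map_neg, norm_neg] at this
      exact this.trans (X.le_opNorm _)
    simpa only [sub_add_cancel, zero_add] using h6.add h3
  have h6 := ((h4.inv₀ one_ne_zero).mul h5).pow 2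
  rw [inv_one, mul_one, one_pow] at h6
  obtain ⟨n, h7, h8⟩ := ((Metric.tendsto_nhds.1 h6 ε hε).and
    (h4.eventually (lt_mem_nhds zero_lt_one))).exists
  refine ⟨((‖e n - F.starProjection (e n)‖⁻¹ : ℝ) : ℂ) • (e n - F.starProjection (e n)), ?_,
    fun f hf => ?_, ?_⟩
  · rw [norm_smul, Complex.norm_real, norm_inv, norm_norm, inv_mul_cancel₀ h8.ne']
  · rw [inner_smul_right, F.sub_starProjection_mem_orthogonal (e n) f (Submodule.subset_span hf),
      mul_zero]
  · rw [map_smul, norm_smul, Complex.norm_real, norm_inv, norm_norm]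
    exact h7

theorem exists_root (A : H →L[ℂ] H) (hA : A.IsPositive) : ∃ X : H →L[ℂ] H,
    (∀ x y, inner ℂ (A x) y = inner ℂ (X x) (X y)) ∧ (IsCompactOperator X → IsCompactOperator A) := by
  have h0 : 0 ≤ A := (ContinuousLinearMap.nonneg_iff_isPositive A).2 hA
  have h1 := CFC.sqrt_mul_sqrt_self A h0
  have h2 : IsSelfAdjoint (CFC.sqrt A) := IsSelfAdjoint.of_nonneg (CFC.sqrt_nonneg A)
  generalize CFC.sqrt A = X at h1 h2
  subst h1
  exact ⟨X, fun x y => h2.isSymmetric (X x) y, fun h => h.comp_clm X⟩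

end Pool.Agent.FS.AsymLimit
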