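import Pool.Agent.FS.AsymLimit.Base

/-! A noncompact asymptotic limit has the number one in its essential numerical range. -/

open Filter Topology

namespace Pool.Agent.FS.AsymLimit

variable {H : Type*} [NormedAddCommGroup H] [InnerProductSpace ℂ H]

theorem unit_to_all (X : H →L[ℂ] H) (s : Finset H) (P : ℝ → ℝ → Prop) (h0 : P 0 0)
    (hP : ∀ a r, 0 < r → P 1 a → P r (r * a))
    (h : ∀ x : H, ‖x‖ = 1 → (∀ f ∈ s, inner ℂ f x = 0) → P 1 ‖X x‖) (x : H)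
    (hx : x ∈ (Submodule.span ℂ (s : Set H))ᗮ) : P ‖x‖ ‖X x‖ := by
  by_cases hx0 : x = 0
  · rw [hx0, map_zero, norm_zero]; exact h0
  have hr : 0 < ‖x‖ := norm_pos_iff.2 hx0
  have h1 := hP _ _ hr (h (((‖x‖⁻¹ : ℝ) : ℂ) • x) (by
    rw [norm_smul, Complex.norm_real, norm_inv, norm_norm, inv_mul_cancel₀ hr.ne']) fun f hf => by
    rw [inner_smul_right, hx f (Submodule.subset_span hf), mul_zero])
  rwa [map_smul, norm_smul, Complex.norm_real, norm_inv, norm_norm,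
    mul_inv_cancel_left₀ hr.ne'] at h1

theorem exists_big [CompleteSpace H] (X : H →L[ℂ] H) (hX : ¬ IsCompactOperator X) :
    ∃ δ : ℝ, 0 < δ ∧ ∀ s : Finset H, ∃ x, ‖x‖ = 1 ∧ (∀ f ∈ s, inner ℂ f x = 0) ∧ δ ≤ ‖X x‖ := by
  by_contra hc
  push Not at hc
  apply hX
  refine isClosed_setOfPred_isCompactOperator.closure_subset (Metric.mem_closure_iff.2 fun ε hε => ?_)
  obtain ⟨s, hs⟩ := hc (ε / 2) (by positivity)
  let F := Submodule.span ℂ (s : Set H)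
  have : ProperSpace F := FiniteDimensional.proper ℂ F
  refine ⟨X.comp F.starProjection, ((isCompactOperator_of_locallyCompactSpace_dom
    F.orthogonalProjectionOnto).clm_comp (X.comp F.subtypeL) :), ?_⟩
  rw [dist_eq_norm]
  refine lt_of_le_of_lt (ContinuousLinearMap.opNorm_le_bound _ (by positivity) fun x => ?_)
    (half_lt_self hε)
  have h1 := unit_to_all X s (fun r a => a ≤ ε / 2 * r) (by simp)
    (fun a r hr ha => by nlinarith) (fun x h1 h2 => by simpa using (hs x h1 h2).le)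
    (Fᗮ.starProjection x) (Fᗮ.starProjection_apply_mem x)
  have h2 : (X - X.comp F.starProjection) x = X (Fᗮ.starProjection x) := by
    rw [Submodule.starProjection_orthogonal_val, map_sub]; rfl
  rw [h2]
  exact h1.trans (mul_le_mul_of_nonneg_left (Fᗮ.norm_starProjection_apply_le x) (by positivity))

theorem exists_sign (X : H →L[ℂ] H) (G : Submodule ℂ H) {ε : ℝ} (hε : 0 < ε)
    (h : ∀ x ∈ G, ε * ‖x‖ ^ 2 ≤ |‖X x‖ ^ 2 - ‖x‖ ^ 2|) :
    ∃ σ : ℝ, |σ| = 1 ∧ ∀ x ∈ G, ε * ‖x‖ ^ 2 ≤ σ * (‖X x‖ ^ 2 - ‖x‖ ^ 2) := by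
  by_cases hc : ∀ x ∈ G, 0 ≤ ‖X x‖ ^ 2 - ‖x‖ ^ 2
  · exact ⟨1, abs_one, fun x hx => by rw [one_mul, ← abs_of_nonneg (hc x hx)]; exact h x hx⟩
  push Not at hc
  obtain ⟨y, hy, hy'⟩ := hc
  refine ⟨-1, by simp, fun x hx => ?_⟩
  rw [neg_one_mul, ← abs_of_nonpos]
  · exact h x hx
  by_contra hx'
  push Not at hx'
  let z : ℝ → H := fun t => ((1 - t : ℝ) : ℂ) • y + (t : ℂ) • x
  have hz : Continuous z := by fun_prop
  have hq : Continuous fun t => ‖X (z t)‖ ^ 2 - ‖z t‖ ^ 2 := by fun_prop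
  obtain ⟨t, ht, ht0⟩ := intermediate_value_Ioo (zero_le_one' ℝ) hq.continuousOn
    (show (0 : ℝ) ∈ Set.Ioo _ _ from ⟨by simpa [z] using hy', by simpa [z] using hx'⟩)
  have h1 := h (z t) (G.add_mem (G.smul_mem _ hy) (G.smul_mem _ hx))
  change ‖X (z t)‖ ^ 2 - ‖z t‖ ^ 2 = 0 at ht0
  rw [ht0, abs_zero] at h1
  have h2 : z t = 0 := by
    by_contra h3
    have := mul_pos hε (pow_pos (norm_pos_iff.2 h3) 2)
    linarith
  have h3 : ((1 - t : ℝ) : ℂ) • y = -((t : ℂ) • x) := eq_neg_of_add_eq_zero_left h2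
  have h4 : |1 - t| * ‖y‖ = |t| * ‖x‖ := by
    have := congrArg norm h3
    rwa [norm_neg, norm_smul, norm_smul, Complex.norm_real, Complex.norm_real] at this
  have h5 : |1 - t| * ‖X y‖ = |t| * ‖X x‖ := by
    have := congrArg (fun v => ‖X v‖) h3
    simp only [map_neg, map_smul] at this
    rwa [norm_neg, norm_smul, norm_smul, Complex.norm_real, Complex.norm_real] at this
  have h6 : |1 - t| ^ 2 * (‖X y‖ ^ 2 - ‖y‖ ^ 2) = |t| ^ 2 * (‖X x‖ ^ 2 - ‖x‖ ^ 2) := by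
    rw [mul_sub, mul_sub, ← mul_pow, ← mul_pow, ← mul_pow, ← mul_pow, h4, h5]
  have h7 := mul_pos (pow_pos (abs_pos.2 ht.1.ne') 2) hx'
  have h8 := mul_nonpos_of_nonneg_of_nonpos (sq_nonneg |1 - t|) hy'.le
  linarith

theorem form_bound (X : H →L[ℂ] H) (F : Submodule ℂ H) [F.HasOrthogonalProjection] {ε σ : ℝ}
    (hε : 0 < ε) (hσ : |σ| = 1) (h : ∀ x ∈ Fᗮ, ε * ‖x‖ ^ 2 ≤ σ * (‖X x‖ ^ 2 - ‖x‖ ^ 2)) :
    ∃ C : ℝ, 0 ≤ C ∧ ∀ y, ε / 2 * ‖y‖ ^ 2 ≤ σ * (‖X y‖ ^ 2 - ‖y‖ ^ 2) +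
      C * ‖F.starProjection y‖ ^ 2 := by
  obtain ⟨N, hN⟩ : ∃ N, N = ‖X‖ ^ 2 := ⟨_, rfl⟩
  have hN0 : 0 ≤ N := hN ▸ sq_nonneg _
  refine ⟨2 * N ^ 2 / ε + N + 1 + ε / 2, by positivity, fun y => ?_⟩
  have h1 := h _ (Fᗮ.starProjection_apply_mem y)
  have h2 := Submodule.norm_sq_eq_add_norm_sq_starProjection y F
  have h3 : X y = X (F.starProjection y) + X (Fᗮ.starProjection y) := by
    rw [← map_add, Submodule.starProjection_orthogonal_val, add_sub_cancel]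
  generalize F.starProjection y = p at h2 h3 ⊢
  generalize Fᗮ.starProjection y = r at h1 h2 h3
  have h4 := norm_add_sq (𝕜 := ℂ) (X p) (X r)
  rw [← h3] at h4
  have h5 : |RCLike.re (inner ℂ (X p) (X r))| ≤ N * (‖p‖ * ‖r‖) := by
    refine (RCLike.abs_re_le_norm _).trans ((norm_inner_le_norm _ _).trans ?_)
    calc ‖X p‖ * ‖X r‖ ≤ (‖X‖ * ‖p‖) * (‖X‖ * ‖r‖) :=
          mul_le_mul (X.le_opNorm p) (X.le_opNorm r) (norm_nonneg _) (by positivity)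
      _ = _ := by rw [hN]; ring
  have h6 : ‖X p‖ ^ 2 ≤ N * ‖p‖ ^ 2 := by
    rw [hN, ← mul_pow]
    exact pow_le_pow_left₀ (norm_nonneg _) (X.le_opNorm p) 2
  have h7 : 2 * (N * (‖p‖ * ‖r‖)) ≤ ε / 2 * ‖r‖ ^ 2 + 2 * N ^ 2 / ε * ‖p‖ ^ 2 := by
    have : ε / 2 * ‖r‖ ^ 2 + 2 * N ^ 2 / ε * ‖p‖ ^ 2 - 2 * (N * (‖p‖ * ‖r‖)) =
        (ε * ‖r‖ - 2 * N * ‖p‖) ^ 2 / (2 * ε) := by field_simp; ring
    have h8 : 0 ≤ (ε * ‖r‖ - 2 * N * ‖p‖) ^ 2 / (2 * ε) := by positivity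
    linarith
  have h8 := abs_le.1 h5
  have h9 := sq_nonneg ‖X p‖
  have h10 := sq_nonneg ‖p‖
  have h11 := mul_nonneg hN0 h10
  rw [h4, h2]
  rcases abs_eq (zero_le_one' ℝ) |>.1 hσ with rfl | rfl <;> nlinarith [h8.1, h8.2]

theorem proj_sum [CompleteSpace H] (F : Submodule ℂ H) [FiniteDimensional ℂ F] (S : H →L[ℂ] H)
    {M : ℝ} (hS : ‖S‖ ≤ M) (g : ℕ → H) (hg : Orthonormal ℂ g) (t : Finset ℕ) :
    ∑ j ∈ t, ‖F.starProjection (S (g j))‖ ^ 2 ≤ Module.finrank ℂ F * M ^ 2 := by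
  let b := stdOrthonormalBasis ℂ F
  have h1 : ∀ z : H, ‖F.starProjection z‖ ^ 2 = ∑ i, ‖inner ℂ (b i : H) z‖ ^ 2 := fun z => by
    change ‖F.orthogonalProjectionOnto z‖ ^ 2 = _
    rw [← b.sum_sq_norm_inner_right]
    refine Finset.sum_congr rfl fun i _ => ?_
    rw [Submodule.inner_orthogonalProjectionOnto_eq_of_mem_left]
  simp only [h1]
  rw [Finset.sum_comm]
  refine (Finset.sum_le_card_nsmul _ _ (M ^ 2) fun i _ => ?_).trans (by simp)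
  have h2 := hg.sum_inner_products_le (s := t) (S.adjoint (b i))
  have h3 : ‖S.adjoint (b i : H)‖ ≤ M := by
    refine (S.adjoint.le_opNorm _).trans ?_
    rw [LinearIsometryEquiv.norm_map, show ‖(b i : H)‖ = 1 from b.orthonormal.1 i, mul_one]
    exact hS
  refine le_trans (le_of_eq (Finset.sum_congr rfl fun j _ => ?_))
    (h2.trans (pow_le_pow_left₀ (norm_nonneg _) h3 2))
  rw [S.adjoint_inner_right, norm_inner_symm]

theorem nec [CompleteSpace H] (L : Seq →ₗ[ℂ] ℂ)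
    (hpos : ∀ u : Seq, (∀ n, 0 ≤ (u n).re ∧ (u n).im = 0) → 0 ≤ (L u).re ∧ (L u).im = 0)
    (hshift : ∀ u v : Seq, (∀ n, v n = u (n + 1)) → L v = L u)
    (hone : ∀ u : Seq, (∀ n, u n = 1) → L u = 1) (X T : H →L[ℂ] H) (hX : ¬ IsCompactOperator X)
    {M : ℝ} (hM : ∀ n : ℕ, ‖T ^ n‖ ≤ M)
    (hA : ∀ (x : H) (u : Seq), (∀ n : ℕ, u n = inner ℂ ((T ^ n) x) ((T ^ n) x)) →
      inner ℂ (X x) (X x) = L u) (s : Finset H) (ε : ℝ) (hε : 0 < ε) :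
    ∃ x, ‖x‖ = 1 ∧ (∀ f ∈ s, inner ℂ f x = 0) ∧ |‖X x‖ ^ 2 - 1| < ε := by
  by_contra hc
  push Not at hc
  let F := Submodule.span ℂ (s : Set H)
  obtain ⟨σ, hσ, h1⟩ := exists_sign X Fᗮ hε (unit_to_all X s
    (fun r a => ε * r ^ 2 ≤ |a ^ 2 - r ^ 2|) (by simp) (fun a r hr ha => by
      have : (r * a) ^ 2 - r ^ 2 = r ^ 2 * (a ^ 2 - 1 ^ 2) := by ring
      rw [this, abs_mul, abs_of_nonneg (sq_nonneg r)]
      nlinarith [sq_nonneg r]) fun x h1 h2 => by simpa using hc x h1 h2)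
  obtain ⟨C, hC, h2⟩ := form_bound X F hε hσ h1
  obtain ⟨δ, hδ, h3⟩ := exists_big X hX
  obtain ⟨g, hg, -, hgδ⟩ := exists_seq X (fun _ x => δ ≤ ‖X x‖) (fun _ _ _ _ h => h)
    fun _ s => h3 s
  let u : H → Seq := fun x => .ofNormedAddCommGroupDiscrete
    (fun n => ((‖(T ^ n) x‖ ^ 2 : ℝ) : ℂ)) ((M * ‖x‖) ^ 2) fun n => by
      rw [Complex.norm_real, norm_pow, norm_norm]
      exact pow_le_pow_left₀ (norm_nonneg _) ((T ^ n).le_of_opNorm_le (hM n) x) 2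
  have hu : ∀ x, L (u x) = ((‖X x‖ ^ 2 : ℝ) : ℂ) := fun x => by
    rw [← hA x (u x) fun n => ?_, inner_self_eq_norm_sq_to_K]
    · simp
    · rw [inner_self_eq_norm_sq_to_K]
      change ((‖(T ^ n) x‖ ^ 2 : ℝ) : ℂ) = _
      simp
  have hinv : ∀ (k : ℕ) x, ‖X ((T ^ k) x)‖ ^ 2 = ‖X x‖ ^ 2 := fun k x => by
    have h4 := lim_shift L hshift k (u x) (u ((T ^ k) x)) fun n => by
      change ((‖(T ^ n) ((T ^ k) x)‖ ^ 2 : ℝ) : ℂ) = ((‖(T ^ (n + k)) x‖ ^ 2 : ℝ) : ℂ)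
      rw [pow_add T]; rfl
    rw [hu, hu] at h4
    exact_mod_cast h4
  have key : ∀ m : ℕ, ε / 2 * (m * δ ^ 2) ≤ C * (Module.finrank ℂ F * M ^ 2) := by
    intro m
    obtain ⟨α, hα⟩ : ∃ α, α = ∑ j ∈ Finset.range m, ‖X (g j)‖ ^ 2 := ⟨_, rfl⟩
    have h4 := (lim_le L hpos hone (∑ j ∈ Finset.range m, u (g j)) ((ε / 2 + σ : ℝ) : ℂ)
      (σ * α + C * (Module.finrank ℂ F * M ^ 2)) fun n => by
        have h5 : (∑ j ∈ Finset.range m, u (g j)) n =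
            ((∑ j ∈ Finset.range m, ‖(T ^ n) (g j)‖ ^ 2 : ℝ) : ℂ) := by
          rw [BoundedContinuousFunction.sum_apply, Complex.ofReal_sum]; rfl
        rw [h5, ← Complex.ofReal_mul, Complex.ofReal_re, Complex.ofReal_im]
        refine ⟨?_, rfl⟩
        have h6 := Finset.sum_le_sum fun j (_ : j ∈ Finset.range m) => h2 ((T ^ n) (g j))
        simp only [hinv, Finset.sum_add_distrib, ← Finset.mul_sum, Finset.sum_sub_distrib] at h6
        have h7 := mul_le_mul_of_nonneg_left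
          (proj_sum F (T ^ n) (hM n) g hg (Finset.range m)) hC
        rw [← hα] at h6
        linarith).1
    simp only [map_sum, hu] at h4
    rw [← Complex.ofReal_sum, ← hα, ← Complex.ofReal_mul, Complex.ofReal_re] at h4
    have h5 : m * δ ^ 2 ≤ α := by
      rw [hα]
      simpa using Finset.card_nsmul_le_sum (Finset.range m) (fun j => ‖X (g j)‖ ^ 2) (δ ^ 2)
        fun j _ => pow_le_pow_left₀ hδ.le (hgδ j) 2
    nlinarith
  obtain ⟨m, hm⟩ := exists_nat_gt (C * (Module.finrank ℂ F * M ^ 2) / (ε / 2 * δ ^ 2))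
  rw [div_lt_iff₀ (by positivity)] at hm
  have := key m
  nlinarith

end Pool.Agent.FS.AsymLimit
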