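import Pool.Agent.FS.AsymLimit.Ess

/-! Construction of an operator similar to a unitary with a given asymptotic limit. -/

open Filter Topology

namespace Pool.Agent.FS.AsymLimit

theorem exists_shift {w : Type*} [Countable w] (ι : ℕ → w) (hι : Function.Injective ι) :
    ∃ (τ : w ≃ w) (φ : w → ℕ), Function.Injective φ ∧ ∀ i, ∃ N : ℕ, ∀ n, N ≤ n →
      ι (φ (τ^[n] i)) = τ^[n] i ∧ n - N ≤ φ (τ^[n] i) := by
  classical
  have h2 : Function.Injective fun k => ι (2 * k) := fun a b h => by have := hι h; omega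
  have : Infinite ↥(Set.range fun k => ι (2 * k))ᶜ :=
    Infinite.of_injective (fun k : ℕ => ⟨ι (2 * k + 1), fun ⟨j, hj⟩ => by
      have := hι hj; omega⟩) fun a b h => by have := hι (congrArg Subtype.val h); omega
  obtain ⟨e₂⟩ : Nonempty (ℕ ≃ ↥(Set.range fun k => ι (2 * k))ᶜ) := inferInstance
  let e : ℤ ≃ w := Equiv.intEquivNatSumNat.trans
    ((Equiv.sumCongr (Equiv.ofInjective _ h2) e₂).trans (Equiv.Set.sumCompl _))
  let ψ : ℤ → ℕ := fun z => if 0 ≤ z then 2 * z.toNat else 2 * (-z).toNat + 1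
  have hψ : Function.Injective ψ := fun a b h => by
    simp only [ψ] at h
    split_ifs at h <;> omega
  have he : ∀ k : ℕ, e k = ι (2 * k) := fun k => rfl
  refine ⟨e.symm.trans ((Equiv.addRight 1).trans e), ψ ∘ e.symm, hψ.comp e.symm.injective,
    fun i => ?_⟩
  obtain ⟨z, rfl⟩ := e.surjective i
  have h3 : ∀ n : ℕ, (e.symm.trans ((Equiv.addRight 1).trans e))^[n] (e z) = e (z + n) := by
    intro n
    induction n with
    | zero => simp
    | succ n ih =>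
      rw [Function.iterate_succ_apply', ih]
      simp [add_assoc]
  refine ⟨z.natAbs, fun n hn => ?_⟩
  obtain ⟨k, hk⟩ : ∃ k : ℕ, z + n = k := ⟨(z + n).toNat, by omega⟩
  have h4 : (ψ ∘ e.symm) (e k) = 2 * k := by simp [ψ]
  rw [h3, hk, h4, he]
  exact ⟨rfl, by omega⟩

variable {H : Type*} [NormedAddCommGroup H] [InnerProductSpace ℂ H]

theorem strong_zero {w : Type*} (b : HilbertBasis w ℂ H) (S : ℕ → H →L[ℂ] H) {K : ℝ}
    (hK : ∀ n x, ‖S n x‖ ≤ K * ‖x‖) (h : ∀ i, Tendsto (fun n => S n (b i)) atTop (𝓝 0)) (x : H) :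
    Tendsto (fun n => S n x) atTop (𝓝 0) := by
  have h1 : ∀ y ∈ Submodule.span ℂ (Set.range b), Tendsto (fun n => S n y) atTop (𝓝 0) := by
    intro y hy
    induction hy using Submodule.span_induction with
    | mem y hy => obtain ⟨i, rfl⟩ := hy; exact h i
    | zero => simp
    | add y z _ _ hy hz => simpa using hy.add hz
    | smul c y _ hy => simpa using hy.const_smul c
  refine Metric.tendsto_nhds.2 fun ε hε => ?_
  obtain ⟨y, hy, hxy⟩ := Metric.mem_closure_iff.1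
    (Submodule.dense_iff_topologicalClosure_eq_top.2 b.dense_span x) (ε / 2 / (|K| + 1))
    (by positivity)
  filter_upwards [Metric.tendsto_nhds.1 (h1 y hy) (ε / 2) (by positivity)] with n hn
  rw [dist_zero_right] at hn ⊢
  rw [dist_eq_norm, lt_div_iff₀ (by positivity)] at hxy
  have h2 : S n x = S n (x - y) + S n y := by rw [map_sub, sub_add_cancel]
  have h3 := hK n (x - y)
  have h4 := norm_add_le (S n (x - y)) (S n y)
  rw [← h2] at h4
  nlinarith [le_abs_self K, norm_nonneg (x - y)]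

theorem suf_unitary [CompleteSpace H] [TopologicalSpace.SeparableSpace H] (X Y : H →L[ℂ] H)
    (hYX : Y * X = 1) (hXY : X * Y = 1) (h : ∀ (s : Finset H) (ε : ℝ), 0 < ε →
      ∃ x, ‖x‖ = 1 ∧ (∀ f ∈ s, inner ℂ f x = 0) ∧ |‖X x‖ ^ 2 - 1| < ε) :
    ∃ V ∈ unitary (H →L[ℂ] H), ∀ x y, Tendsto (fun n : ℕ =>
      inner ℂ (((Y * V * X) ^ n) x) (((Y * V * X) ^ n) y)) atTop (𝓝 (inner ℂ (X x) (X y))) := by
  classical
  obtain ⟨g, hg, hXg, hQ⟩ := exists_seq X (fun n x => |‖X x‖ ^ 2 - 1| < 1 / (2 * ((n : ℝ) + 1)))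
    (fun m n x hmn hx => hx.trans_le (one_div_le_one_div_of_le (by positivity) (by
      have : (m : ℝ) ≤ n := by exact_mod_cast hmn
      linarith))) fun n s => h s _ (by positivity)
  have ha : ∀ n, 1 / 2 ≤ ‖X (g n)‖ := fun n => by
    have h1 : 1 / (2 * ((n : ℝ) + 1)) ≤ 1 / 2 := one_div_le_one_div_of_le (by norm_num) (by
      have : (0 : ℝ) ≤ n := n.cast_nonneg
      linarith)
    have h2 := (abs_lt.1 (hQ n)).1
    by_contra hc
    nlinarith [norm_nonneg (X (g n))]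
  have ha' : ∀ n : ℕ, |‖X (g n)‖⁻¹ - 1| ≤ 1 / ((n : ℝ) + 1) := fun n => by
    obtain ⟨a, hae⟩ : ∃ a, a = ‖X (g n)‖ := ⟨_, rfl⟩
    have h1 := ha n
    have h2 := hQ n
    rw [← hae] at h1 h2 ⊢
    have h3 : a⁻¹ - 1 = -((a ^ 2 - 1) / (a * (a + 1))) := by field_simp; ring
    have h4 : 1 / ((n : ℝ) + 1) = 1 / (2 * ((n : ℝ) + 1)) / (1 / 2) := by field_simp
    rw [h3, abs_neg, abs_div, h4, abs_of_pos (show 0 < a * (a + 1) by positivity)]
    exact div_le_div₀ (by positivity) h2.le (by norm_num) (by nlinarith)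
  let ι : ℕ → H := fun n => ((‖X (g n)‖⁻¹ : ℝ) : ℂ) • X (g n)
  have hι : Orthonormal ℂ ι := by
    refine ⟨fun n => ?_, fun i j hij => ?_⟩
    · have := ha n
      change ‖((‖X (g n)‖⁻¹ : ℝ) : ℂ) • X (g n)‖ = 1
      rw [norm_smul, Complex.norm_real, norm_inv, norm_norm, inv_mul_cancel₀ (by linarith)]
    · change inner ℂ (((‖X (g i)‖⁻¹ : ℝ) : ℂ) • X (g i)) (((‖X (g j)‖⁻¹ : ℝ) : ℂ) • X (g j)) = 0
      rw [inner_smul_left, inner_smul_right, hXg i j hij, mul_zero, mul_zero]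
  obtain ⟨w, b, hw, hb⟩ := hι.toSubtypeRange.exists_hilbertBasis_extension
  have := countable_basis b b.orthonormal
  obtain ⟨τ, φ, hφ, hτ⟩ := exists_shift (fun n => (⟨ι n, hw ⟨n, rfl⟩⟩ : w))
    fun i j hij => hι.linearIndependent.injective (congrArg Subtype.val hij)
  obtain ⟨J, hJ, hJn, hJb⟩ := exists_iso b (g ∘ φ) (hg.comp φ hφ)
  obtain ⟨V, hV, hVn, hVb⟩ := exists_iso b (b ∘ τ) (b.orthonormal.comp τ τ.injective)
  obtain ⟨W, -, -, hWb⟩ := exists_iso b (b ∘ τ.symm) (b.orthonormal.comp _ τ.symm.injective)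
  have hVW : V * W = 1 := ext_basis b fun i => by
    change V (W (b i)) = b i
    rw [hWb, Function.comp_apply, hVb, Function.comp_apply, τ.apply_symm_apply]
  have hVV : star V * V = 1 := V.inner_map_map_iff_adjoint_comp_self.1 hV
  have hsV : star V = W := by rw [← mul_one (star V), ← hVW, ← mul_assoc, hVV, one_mul]
  have hVp : ∀ (n : ℕ) i, (V ^ n) (b i) = b (τ^[n] i) := by
    intro n i
    induction n with
    | zero => rfl
    | succ n ih =>
      rw [pow_succ', mul_apply_eq_comp, ih, hVb, Function.iterate_succ_apply']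
      rfl
  have hVi : ∀ (n : ℕ) x y, inner ℂ ((V ^ n) x) ((V ^ n) y) = inner ℂ x y := by
    intro n x y
    induction n with
    | zero => rfl
    | succ n ih => rw [pow_succ', mul_apply_eq_comp, mul_apply_eq_comp, hV, ih]
  have hVm : ∀ (n : ℕ) x, ‖(V ^ n) x‖ = ‖x‖ := by
    intro n x
    induction n with
    | zero => rfl
    | succ n ih => rw [pow_succ', mul_apply_eq_comp, hVn, ih]
  have hT : ∀ n : ℕ, (Y * V * X) ^ n = Y * V ^ n * X := by
    intro n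
    induction n with
    | zero => rw [pow_zero, pow_zero, mul_one, hYX]
    | succ n ih =>
      rw [pow_succ, ih, pow_succ]
      simp only [mul_assoc]
      rw [← mul_assoc X Y, hXY, one_mul]
  have hE0 : ∀ x, Tendsto (fun n : ℕ => ‖Y ((V ^ n) x) - J ((V ^ n) x)‖) atTop (𝓝 0) := by
    intro x
    refine tendsto_zero_iff_norm_tendsto_zero.1 (strong_zero b (fun n => (Y - J) * V ^ n)
      (K := ‖Y - J‖) (fun n x => ?_) (fun i => ?_) x)
    · rw [← hVm n x]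
      exact (Y - J).le_opNorm _
    · obtain ⟨N, hN⟩ := hτ i
      refine squeeze_zero_norm' (eventually_atTop.2 ⟨N, fun n hn => ?_⟩)
        ((tendsto_one_div_add_atTop_nhds_zero_nat (𝕜 := ℝ)).comp (tendsto_sub_atTop_nat N))
      obtain ⟨h1, h2⟩ := hN n hn
      have h3 : b (τ^[n] i) = ι (φ (τ^[n] i)) := by rw [hb]; exact (congrArg Subtype.val h1).symm
      have h4 : Y (b (τ^[n] i)) =
          ((‖X (g (φ (τ^[n] i)))‖⁻¹ : ℝ) : ℂ) • g (φ (τ^[n] i)) := by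
        rw [h3]
        change Y (((‖X (g (φ (τ^[n] i)))‖⁻¹ : ℝ) : ℂ) • X (g (φ (τ^[n] i)))) = _
        rw [map_smul, ← mul_apply_eq_comp Y X, hYX]
        rfl
      change ‖Y ((V ^ n) (b i)) - J ((V ^ n) (b i))‖ ≤ 1 / (((n - N : ℕ) : ℝ) + 1)
      rw [hVp, hJb, h4, Function.comp_apply]
      nth_rewrite 3 [← one_smul ℂ (g (φ (τ^[n] i)))]
      rw [← sub_smul, norm_smul, hg.1, mul_one, ← Complex.ofReal_one, ← Complex.ofReal_sub,
        Complex.norm_real, Real.norm_eq_abs]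
      refine (ha' _).trans (one_div_le_one_div_of_le (by positivity) ?_)
      have : ((n - N : ℕ) : ℝ) ≤ φ (τ^[n] i) := by exact_mod_cast h2
      linarith
  refine ⟨V, ⟨hVV, by rw [hsV, hVW]⟩, fun x y => ?_⟩
  rw [tendsto_iff_norm_sub_tendsto_zero]
  refine squeeze_zero (fun _ => norm_nonneg _) (fun n => ?_) (by
    simpa only [zero_mul, mul_zero, add_zero] using
      ((hE0 (X x)).mul_const (‖Y‖ * ‖X y‖)).add ((hE0 (X y)).const_mul ‖X x‖))
  rw [hT]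
  change ‖inner ℂ (Y ((V ^ n) (X x))) (Y ((V ^ n) (X y))) - inner ℂ (X x) (X y)‖ ≤ _
  rw [← hVi n (X x) (X y), ← hJ ((V ^ n) (X x))]
  have h1 : inner ℂ (Y ((V ^ n) (X x))) (Y ((V ^ n) (X y))) -
      inner ℂ (J ((V ^ n) (X x))) (J ((V ^ n) (X y))) =
      inner ℂ (Y ((V ^ n) (X x)) - J ((V ^ n) (X x))) (Y ((V ^ n) (X y))) +
      inner ℂ (J ((V ^ n) (X x))) (Y ((V ^ n) (X y)) - J ((V ^ n) (X y))) := by
    rw [inner_sub_left, inner_sub_right]; ring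
  rw [h1]
  refine (norm_add_le _ _).trans (add_le_add ((norm_inner_le_norm _ _).trans ?_)
    ((norm_inner_le_norm _ _).trans ?_))
  · refine mul_le_mul_of_nonneg_left ((Y.le_opNorm _).trans ?_) (norm_nonneg _)
    rw [hVm]
  · rw [hJn, hVm]

theorem exists_root_unit [CompleteSpace H] (A : H →L[ℂ] H) (hA : A.IsPositive) :
    ∃ X : H →L[ℂ] H, (∀ x y, inner ℂ (A x) y = inner ℂ (X x) (X y)) ∧
      (IsCompactOperator X → IsCompactOperator A) ∧ (IsUnit A → IsUnit X) := by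
  have h0 : 0 ≤ A := (ContinuousLinearMap.nonneg_iff_isPositive A).2 hA
  have h1 := CFC.sqrt_mul_sqrt_self A h0
  have h2 : IsSelfAdjoint (CFC.sqrt A) := IsSelfAdjoint.of_nonneg (CFC.sqrt_nonneg A)
  have h3 := (CFC.isUnit_sqrt_iff A h0).2
  generalize CFC.sqrt A = X at h1 h2 h3
  subst h1
  exact ⟨X, fun x y => h2.isSymmetric (X x) y, fun h => h.comp_clm X, h3⟩

theorem similar_bounds [CompleteSpace H] (S : (H →L[ℂ] H)ˣ) (U : unitary (H →L[ℂ] H)) :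
    ∃ M : ℝ, 0 ≤ M ∧ ∀ n : ℕ, ‖((↑S⁻¹ : H →L[ℂ] H) * U * S) ^ n‖ ≤ M ∧
      ∀ x, ‖x‖ ≤ M * ‖(((↑S⁻¹ : H →L[ℂ] H) * U * S) ^ n) x‖ := by
  refine ⟨‖(↑S⁻¹ : H →L[ℂ] H)‖ * ‖(S : H →L[ℂ] H)‖, by positivity, fun n => ?_⟩
  rw [Units.conj_pow', ← SubmonoidClass.coe_pow]
  generalize U ^ n = V
  have h1 : ∀ x, ‖(V : H →L[ℂ] H) x‖ = ‖x‖ := Unitary.norm_map V
  refine ⟨ContinuousLinearMap.opNorm_le_bound _ (by positivity) fun x => ?_, fun x => ?_⟩
  · rw [mul_apply_eq_comp, mul_apply_eq_comp, mul_assoc]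
    refine (ContinuousLinearMap.le_opNorm _ _).trans (mul_le_mul_of_nonneg_left ?_ (norm_nonneg _))
    rw [h1]
    exact ContinuousLinearMap.le_opNorm _ _
  · have h2 : ∀ y, (↑S⁻¹ : H →L[ℂ] H) ((S : H →L[ℂ] H) y) = y := fun y => by
      rw [← mul_apply_eq_comp, S.inv_mul]; rfl
    have h3 : ∀ y, (S : H →L[ℂ] H) ((↑S⁻¹ : H →L[ℂ] H) y) = y := fun y => by
      rw [← mul_apply_eq_comp, S.mul_inv]; rfl
    rw [mul_apply_eq_comp, mul_apply_eq_comp, mul_assoc]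
    nth_rewrite 1 [← h2 x]
    refine (ContinuousLinearMap.le_opNorm _ _).trans (mul_le_mul_of_nonneg_left ?_ (norm_nonneg _))
    rw [← h1 ((S : H →L[ℂ] H) x)]
    nth_rewrite 1 [← h3 ((V : H →L[ℂ] H) ((S : H →L[ℂ] H) x))]
    exact ContinuousLinearMap.le_opNorm _ _

theorem unit_of_lower [CompleteSpace H] (L : Seq →ₗ[ℂ] ℂ)
    (hpos : ∀ u : Seq, (∀ n, 0 ≤ (u n).re ∧ (u n).im = 0) → 0 ≤ (L u).re ∧ (L u).im = 0)
    (hone : ∀ u : Seq, (∀ n, u n = 1) → L u = 1) (A T : H →L[ℂ] H) {M : ℝ}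
    (hM : ∀ n : ℕ, ‖T ^ n‖ ≤ M ∧ ∀ x, ‖x‖ ≤ M * ‖(T ^ n) x‖)
    (hA : ∀ (x : H) (u : Seq), (∀ n : ℕ, u n = inner ℂ ((T ^ n) x) ((T ^ n) x)) →
      inner ℂ (A x) x = L u) : IsUnit A := by
  refine A.isUnit_of_forall_le_norm_inner_map (c := ⟨1 / (M ^ 2 + 1), by positivity⟩)
    (by change (0 : ℝ) < 1 / (M ^ 2 + 1); positivity) fun x => ?_
  let u : Seq := .ofNormedAddCommGroupDiscrete
    (fun n => ((‖(T ^ n) x‖ ^ 2 : ℝ) : ℂ)) ((M * ‖x‖) ^ 2) fun n => by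
      rw [Complex.norm_real, norm_pow, norm_norm]
      exact pow_le_pow_left₀ (norm_nonneg _) ((T ^ n).le_of_opNorm_le (hM n).1 x) 2
  have h1 := hA x u fun n => by
    rw [inner_self_eq_norm_sq_to_K]
    change ((‖(T ^ n) x‖ ^ 2 : ℝ) : ℂ) = _
    simp
  have h2 := (lim_le L hpos hone u ((-M ^ 2 : ℝ) : ℂ) (-‖x‖ ^ 2) fun n => by
    change (((-M ^ 2 : ℝ) : ℂ) * ((‖(T ^ n) x‖ ^ 2 : ℝ) : ℂ)).re ≤ _ ∧
      (((-M ^ 2 : ℝ) : ℂ) * ((‖(T ^ n) x‖ ^ 2 : ℝ) : ℂ)).im = 0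
    rw [← Complex.ofReal_mul, Complex.ofReal_re, Complex.ofReal_im]
    have := pow_le_pow_left₀ (norm_nonneg _) ((hM n).2 x) 2
    exact ⟨by rw [mul_pow] at this; linarith, rfl⟩).1
  rw [Complex.re_ofReal_mul, ← h1] at h2
  have h3 := Complex.re_le_norm (inner ℂ (A x) x)
  change ‖x‖ ^ 2 * (1 / (M ^ 2 + 1)) ≤ _
  rw [mul_one_div, div_le_iff₀ (by positivity)]
  nlinarith [norm_nonneg (inner ℂ (A x) x), sq_nonneg M]

end Pool.Agent.FS.AsymLimit
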